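import Pool.Agent.MP_7adc1e_nt.Mg.H83_Small

namespace Pool.Agent.Results.MP_7adc1e_nt.Congr

open Pool.Agent.MP_7adc1e_nt Pool.Agent.MP_7adc1e_nt.H83

/-- A congruence modulo the characteristic linking the two nonzero multiplicities of a nice
exponent. -/
theorem result :
    ∀ (L : Type) [Field L] [Fintype L] [DecidableEq L],
      ringChar L ≠ 2 →
      ∀ s : ℕ, Nat.Coprime s (Fintype.card L - 1) →
        (Finset.univ.image (fun v : L =>
            (Finset.univ.filter (fun p : L × L =>
              p.1 + p.2 = 1 ∧ p.1 ^ s + p.2 ^ s = v)).card)).card ≤ 3 →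
        ∀ (A B : ℕ) (v : L),
          A = (Finset.univ.filter (fun p : L × L =>
              p.1 + p.2 = 1 ∧ p.1 ^ s + p.2 ^ s = 2 * (2⁻¹) ^ s)).card →
          B = (Finset.univ.filter (fun p : L × L =>
              p.1 + p.2 = 1 ∧ p.1 ^ s + p.2 ^ s = v)).card →
          v ≠ 2 * (2⁻¹) ^ s → B ≠ 0 →
          ∀ e : ℕ, e = 1 ∨ e = s →
            2 * (B : L) + ((A : L) - B) *
              ∑ y ∈ Finset.univ.filter (fun y : L =>
                y ≠ -1 ∧ 2 ^ s * (1 + y ^ s) = 2 * (1 + y) ^ s), (1 + 3 * y ^ e) = 0 := by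
  intro L _ _ _ hp2 s hs hnice A B v hA hB hv hB0 e he
  set p := ringChar L with hp
  have : CharP L p := ringChar.charP L
  obtain ⟨n, hpp, hn⟩ := FiniteField.card L p
  have hodd : Odd (Fintype.card L) := by
    rw [hn]
    exact (hpp.odd_of_ne_two hp2).pow
  have hs0 : s ≠ 0 := by
    rintro rfl
    rw [Nat.coprime_zero_left] at hs
    obtain ⟨c, hc⟩ := hodd
    omega
  have h2 : (2 : L) ≠ 0 := by
    intro h
    have := (CharP.cast_eq_zero_iff L p 2).1 (by exact_mod_cast h)
    exact hp2 ((Nat.prime_dvd_prime_iff_eq hpp Nat.prime_two).1 this)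
  simp only [card_pairs hs0] at hnice hA hB
  subst hA hB
  refine identity _ (pow_inj hs0 hs) h2 hnice hv hB0 (fun y => y ^ e) ?_
  rcases he with rfl | rfl
  · exact Or.inl fun y => pow_one y
  · exact Or.inr fun y => rfl

end Pool.Agent.Results.MP_7adc1e_nt.Congr
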