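import Mathlib

namespace Pool.Agent.MP_7adc1e_nt

open Finset

variable {K L : Type} [Field K] [Field L] [Fintype K] [Fintype L] [DecidableEq K] [DecidableEq L]
  [Algebra K L]

/-- The number of `x` with `f x + f (u - x) = w`. -/
def rep (f : L → L) (u w : L) : ℕ := (univ.filter fun x => f x + f (u - x) = w).card

/-- The number of `x` with `φ (x, f x) = c`. -/
def lev (f : L → L) (φ : L × L →ₗ[K] K) (c : K) : ℕ :=
  (univ.filter fun x => φ (x, f x) = c).card

theorem sum_rep (f : L → L) (S : Finset (L × L)) :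
    ∑ G ∈ S, rep f G.1 G.2 =
      (univ.filter fun xy : L × L => (xy.1 + xy.2, f xy.1 + f xy.2) ∈ S).card := by
  rw [Finset.card_eq_sum_card_fiberwise (f := fun xy : L × L => (xy.1 + xy.2, f xy.1 + f xy.2))
    (t := S) (fun xy h => by simpa using h)]
  refine Finset.sum_congr rfl (fun G hG => ?_)
  unfold rep
  refine Finset.card_bij (fun x _ => (x, G.1 - x)) ?_ ?_ ?_
  · intro x hx
    have := (mem_filter.1 hx).2
    simp [this, hG]
  · intro x _ y _ h
    exact (Prod.ext_iff.1 h).1
  · rintro ⟨x, y⟩ h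
    simp only [mem_filter, mem_univ, true_and] at h
    obtain ⟨-, rfl⟩ := h
    exact ⟨x, by simp, by simp⟩

theorem sum_rep_lev (f : L → L) (φ : L × L →ₗ[K] K) (c : K) :
    ∑ G ∈ univ.filter (fun G => φ G = c), rep f G.1 G.2 =
      ∑ a : K, lev f φ a * lev f φ (c - a) := by
  rw [sum_rep, Finset.card_eq_sum_card_fiberwise (f := fun xy : L × L => φ (xy.1, f xy.1))
    (t := univ) (fun _ _ => by simp)]
  refine Finset.sum_congr rfl (fun a _ => ?_)
  unfold lev
  rw [← Finset.card_product]
  congr 1
  ext ⟨x, y⟩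
  have : φ (x + y, f x + f y) = φ (x, f x) + φ (y, f y) := by rw [← map_add]; rfl
  simp only [mem_filter, mem_univ, true_and, mem_product, this]
  constructor
  · rintro ⟨h1, h2⟩
    exact ⟨h2, by rw [← h1, h2]; ring⟩
  · rintro ⟨h1, h2⟩
    exact ⟨by rw [h1, h2]; ring, h1⟩

section

variable {f : L → L} (hK : ∀ (c : K) x, f (c • x) = c • f x)
include hK

theorem lev_ne (φ : L × L →ₗ[K] K) {c : K} (hc : c ≠ 0) : lev f φ c = lev f φ 1 := by
  unfold lev
  symm
  have key : ∀ (a : K) x, φ (a • x, f (a • x)) = a * φ (x, f x) := by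
    intro a x
    rw [hK, ← smul_eq_mul, ← map_smul]
    rfl
  refine Finset.card_bij (fun x _ => c • x) ?_ ?_ ?_
  · intro x hx
    simp only [mem_filter, mem_univ, true_and] at hx ⊢
    rw [key, hx, mul_one]
  · intro x _ y _ h
    exact smul_right_injective L hc h
  · intro y hy
    simp only [mem_filter, mem_univ, true_and] at hy ⊢
    exact ⟨c⁻¹ • y, by rw [key, hy, inv_mul_cancel₀ hc], smul_inv_smul₀ hc y⟩

theorem lev_sum (φ : L × L →ₗ[K] K) :
    lev f φ 0 + (Fintype.card K - 1) * lev f φ 1 = Fintype.card L := by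
  have h1 : Fintype.card L = ∑ a : K, lev f φ a := by
    rw [← Finset.card_univ, Finset.card_eq_sum_card_fiberwise (f := fun x : L => φ (x, f x))
      (t := univ) (fun _ _ => by simp)]
    rfl
  rw [h1, ← Finset.add_sum_erase _ _ (mem_univ (0 : K)),
    Finset.sum_congr rfl (fun a ha => lev_ne hK φ (Finset.ne_of_mem_erase ha))]
  simp

theorem conv_zero (φ : L × L →ₗ[K] K) :
    ∑ a : K, lev f φ a * lev f φ (0 - a) =
      lev f φ 0 ^ 2 + (Fintype.card K - 1) * lev f φ 1 ^ 2 := by
  rw [← Finset.add_sum_erase _ _ (mem_univ (0 : K)),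
    Finset.sum_congr rfl (g := fun _ => lev f φ 1 ^ 2) (fun a ha => by
      have := Finset.ne_of_mem_erase ha
      rw [lev_ne hK φ this, lev_ne hK φ (c := 0 - a) (by simpa using this), sq])]
  simp [sq]

theorem conv_one (φ : L × L →ₗ[K] K) :
    ∑ a : K, lev f φ a * lev f φ (1 - a) =
      2 * lev f φ 0 * lev f φ 1 + (Fintype.card K - 2) * lev f φ 1 ^ 2 := by
  have h1 : (1 : K) ∈ univ.erase (0 : K) := by simp
  rw [← Finset.add_sum_erase _ _ (mem_univ (0 : K)), ← Finset.add_sum_erase _ _ h1,
    Finset.sum_congr rfl (g := fun _ => lev f φ 1 ^ 2) (fun a ha => by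
      have h2 := Finset.ne_of_mem_erase ha
      have h3 := Finset.ne_of_mem_erase (Finset.mem_of_mem_erase ha)
      rw [lev_ne hK φ h3, lev_ne hK φ (c := 1 - a) (sub_ne_zero.2 h2.symm), sq])]
  rw [Finset.sum_const, Finset.card_erase_of_mem h1, Finset.card_erase_of_mem (mem_univ _)]
  simp only [sub_zero, sub_self, card_univ, smul_eq_mul, Nat.sub_sub]
  ring

theorem pigeon (ψ₁ ψ₂ : L × L →ₗ[K] K) (O : Finset L)
    (hO : ∀ x ∈ O, ∀ c : K, c ≠ 0 → c • x ∈ O)
    (hcard : O.card < Fintype.card K * (Fintype.card K - 1))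
    (h : ∀ x ∈ O, ψ₁ (x, f x) = 0 → ψ₂ (x, f x) = 0 → False) :
    ∃ t : K, ∀ x ∈ O, ψ₁ (x, f x) + t * ψ₂ (x, f x) ≠ 0 := by
  by_contra hcon
  push Not at hcon
  choose x hxO hx using hcon
  have key : ∀ (φ : L × L →ₗ[K] K) (a : K) x, φ (a • x, f (a • x)) = a * φ (x, f x) := by
    intro φ a x
    rw [hK, ← smul_eq_mul, ← map_smul]
    rfl
  have h2 : ∀ t, ψ₂ (x t, f (x t)) ≠ 0 := by
    intro t h0
    have := hx t
    rw [h0, mul_zero, add_zero] at this
    exact h _ (hxO t) this h0
  have hinj : Set.InjOn (fun ta : K × K => ta.2 • x ta.1) 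
      ((univ ×ˢ univ.erase (0 : K) : Finset (K × K)) : Set (K × K)) := by
    rintro ⟨t, a⟩ h1 ⟨t', a'⟩ h1' he
    simp only [coe_product, Set.mem_prod, mem_coe, mem_erase] at h1 h1'
    simp only at he
    have e1 := key ψ₁ a (x t)
    have e2 := key ψ₂ a (x t)
    rw [he, key] at e1 e2
    have e3 := hx t
    have e4 := hx t'
    have ht : t = t' := by
      have : (t - t') * (a * ψ₂ (x t, f (x t))) = 0 := by
        linear_combination a * e3 - a' * e4 + e1 + t' * e2
      rcases mul_eq_zero.1 this with h3 | h3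
      · exact sub_eq_zero.1 h3
      · exact absurd h3 (mul_ne_zero h1.2.1 (h2 t))
    subst ht
    have := mul_right_cancel₀ (h2 t) e2
    rw [this]
  have := Finset.card_le_card_of_injOn _ (t := O) (fun ta hta => by
    simp only [coe_product, Set.mem_prod, mem_coe, mem_erase] at hta
    exact hO _ (hxO _) _ hta.2.1) hinj
  simp only [card_product, card_univ, card_erase_of_mem (mem_univ _)] at this
  omega

end

theorem rep_scale (f : L →*₀ L) (hf : Function.Injective f) {u : L} (hu : u ≠ 0) (w : L) :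
    rep f u w = rep f 1 (w / f u) := by
  have hfu : f u ≠ 0 := fun h => hu (hf (by rw [h, map_zero]))
  unfold rep
  symm
  refine Finset.card_bij (fun x _ => u * x) ?_ ?_ ?_
  · intro x hx
    simp only [mem_filter, mem_univ, true_and] at hx ⊢
    rw [show u - u * x = u * (1 - x) by ring, map_mul, map_mul, ← mul_add, hx]
    field_simp
  · intro x _ y _ h
    exact mul_left_cancel₀ hu h
  · intro y hy
    simp only [mem_filter, mem_univ, true_and] at hy ⊢
    refine ⟨y / u, ?_, by field_simp⟩
    rw [show 1 - y / u = (u - y) / u by field_simp, map_div₀, map_div₀, ← add_div, hy]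

/-- The core statement: the even multiplicity divides `2 r` and is at most `r`. -/
theorem core (f : L →*₀ L) (hf : Function.Injective f) (hK : ∀ (c : K) x, f (c • x) = c • f x)
    (hL : Fintype.card L = Fintype.card K ^ 2) (b : Module.Basis (Fin 2) K L) (hb : b 0 = 1)
    (claim : ∀ a c : K, a ≠ 0 → c ≠ 0 → f (a • 1 + c • b 1) ≠ a • 1 + c • f (b 1))
    (A : ℕ) (hA : ∀ v, v ≠ 1 → rep f 1 v = 0 ∨ rep f 1 v = A) :
    A ∣ 2 * Fintype.card K ∧ A ≤ Fintype.card K ∧ ∃ v, v ≠ 1 ∧ 0 < A ∧ rep f 1 v = A := by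
  obtain ⟨r, hr⟩ : ∃ r, Fintype.card K = r + 2 :=
    ⟨Fintype.card K - 2, by have := Fintype.one_lt_card (α := K); omega⟩
  set g := b 1 with hg
  have hrepr : ∀ a c : K, b.repr (a • 1 + c • g) 0 = a ∧ b.repr (a • 1 + c • g) 1 = c := by
    intro a c
    rw [← hb, hg]
    simp
  have hdec : ∀ x : L, x = b.repr x 0 • 1 + b.repr x 1 • g := by
    intro x
    conv_lhs => rw [← b.sum_repr x]
    rw [Fin.sum_univ_two, hb]
  have hfK : ∀ c : K, f (c • 1) = c • 1 := fun c => by rw [hK, map_one]
  have hneg : ∀ x, f (-x) = - f x := fun x => by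
    have := hK (-1) x
    simpa using this
  -- the values of `rep`
  set B := rep f 1 1 with hB
  have hrepD : ∀ u, u ≠ 0 → rep f u (f u) = B := by
    intro u hu
    have hfu : f u ≠ 0 := fun h => hu (hf (by rw [h, map_zero]))
    rw [rep_scale f hf hu, div_self hfu]
  have hrep0 : rep f 0 0 = Fintype.card L := by
    unfold rep
    rw [Finset.filter_true_of_mem (fun x _ => by simp [hneg]), card_univ]
  have hrepA : ∀ u w, w ≠ f u → rep f u w = 0 ∨ rep f u w = A := by
    intro u w hw
    by_cases hu : u = 0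
    · left
      subst hu
      unfold rep
      rw [Finset.card_eq_zero, Finset.filter_eq_empty_iff]
      intro x _ h
      apply hw
      rw [← h]
      simp [hneg]
    · have hfu : f u ≠ 0 := fun h => hu (hf (by rw [h, map_zero]))
      rw [rep_scale f hf hu]
      exact hA _ (fun h => hw ((div_eq_one_iff_eq hfu).1 h))
  have hBr : r + 2 ≤ B := by
    rw [← hr, ← Finset.card_univ]
    refine Finset.card_le_card_of_injOn (fun c : K => c • (1 : L)) ?_ ?_
    · intro c _
      simp only [coe_filter, mem_univ, true_and, Set.mem_ofPred_eq]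
      rw [show (1 : L) - c • 1 = (1 - c) • 1 by rw [sub_smul, one_smul], hfK, hfK, ← add_smul]
      simp
    · intro c _ d _ h
      exact smul_left_injective K one_ne_zero h
  have hsec : ∀ a c : K, a ≠ 0 → c ≠ 0 → rep f (a • 1 + c • g) (a • 1 + c • f g) = A := by
    intro a c ha hc
    refine (hrepA _ _ (claim a c ha hc).symm).resolve_left ?_
    apply Finset.card_ne_zero_of_mem (a := a • 1)
    simp [hfK, hK]
  have hApos : 0 < A := by
    rw [← hsec 1 1 one_ne_zero one_ne_zero]
    apply Finset.card_pos.2 ⟨(1 : K) • 1, by simp⟩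
  have hmod : (B : ℤ) ≡ (r + 2) ^ 2 [ZMOD A] := by
    have h1 : Fintype.card L = ∑ v : L, rep f 1 v := by
      rw [← Finset.card_univ, Finset.card_eq_sum_card_fiberwise (f := fun x : L => f x + f (1 - x))
        (t := univ) (fun _ _ => by simp)]
      rfl
    rw [← Finset.add_sum_erase _ _ (mem_univ (1 : L)), hL, hr] at h1
    have h2 : A ∣ ∑ v ∈ univ.erase (1 : L), rep f 1 v :=
      Finset.dvd_sum (fun v hv => by
        rcases hA v (Finset.ne_of_mem_erase hv) with h | h <;> simp [h])
    obtain ⟨k, hk⟩ := h2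
    rw [hk, ← hB] at h1
    refine Int.ModEq.symm ((Int.modEq_iff_dvd).2 ⟨-k, ?_⟩)
    have := congrArg (Nat.cast : ℕ → ℤ) h1
    push_cast at this
    linarith
  -- the congruence for a hyperplane
  have hplane : ∀ φ : L × L →ₗ[K] K,
      (A : ℤ) ∣ (lev f φ 1 : ℤ) * (lev f φ 0 - lev f φ 1) := by
    intro φ
    have h1 := sum_rep_lev f φ 1
    rw [conv_one hK, ← Finset.sum_filter_add_sum_filter_not _ (fun G : L × L => G.2 = f G.1)] at h1
    have h2 : ∑ G ∈ (univ.filter (fun G => φ G = 1)).filter (fun G : L × L => G.2 = f G.1),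
        rep f G.1 G.2 = lev f φ 1 * B := by
      rw [Finset.sum_congr rfl (g := fun _ => B) (fun G hG => by
        simp only [mem_filter, mem_univ, true_and] at hG
        rw [hG.2]
        refine hrepD _ (fun h0 => ?_)
        have : G = 0 := Prod.ext h0 (by rw [hG.2, h0, map_zero]; rfl)
        rw [this, map_zero] at hG
        exact zero_ne_one hG.1), Finset.sum_const, smul_eq_mul]
      congr 1
      unfold lev
      symm
      refine Finset.card_bij (fun x _ => (x, f x)) ?_ ?_ ?_
      · intro x hx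
        simpa using hx
      · intro x _ y _ h
        exact (Prod.ext_iff.1 h).1
      · rintro ⟨x, y⟩ h
        simp only [mem_filter, mem_univ, true_and] at h
        obtain ⟨h1, rfl⟩ := h
        exact ⟨x, by simpa using h1, rfl⟩
    have h3 : A ∣ ∑ G ∈ (univ.filter (fun G => φ G = 1)).filter
        (fun G : L × L => ¬ G.2 = f G.1), rep f G.1 G.2 :=
      Finset.dvd_sum (fun G hG => by
        rcases hrepA _ _ (mem_filter.1 hG).2 with h | h <;> simp [h])
    obtain ⟨k, hk⟩ := h3
    rw [h2, hk, hr] at h1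
    have h4 := lev_sum hK φ
    rw [hL, hr] at h4
    simp only [Nat.add_sub_cancel, show r + 2 - 1 = r + 1 by omega] at h1 h4
    obtain ⟨m, hm⟩ := hmod.dvd
    have h1' := congrArg (Nat.cast : ℕ → ℤ) h1
    have h4' := congrArg (Nat.cast : ℕ → ℤ) h4
    push_cast at h1' h4'
    exact ⟨k - lev f φ 1 * m, by
      linear_combination -h1' - (lev f φ 1 : ℤ) * h4' - (lev f φ 1 : ℤ) * hm⟩
  -- coordinates
  let α : L × L →ₗ[K] K := (b.coord 0).comp (LinearMap.fst K L L)
  let β : L × L →ₗ[K] K := (b.coord 1).comp (LinearMap.fst K L L)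
  let ψ : L × L →ₗ[K] L := LinearMap.snd K L L - α.smulRight 1 - β.smulRight (f g)
  have hψ : ∀ G : L × L, ψ G = G.2 - b.repr G.1 0 • 1 - b.repr G.1 1 • f g := fun G => rfl
  have hψ0 : ∀ x, ψ (x, f x) = 0 ↔ b.repr x 0 = 0 ∨ b.repr x 1 = 0 := by
    intro x
    rw [hψ]
    constructor
    · intro h
      by_contra hc
      push Not at hc
      apply claim _ _ hc.1 hc.2
      rw [← hdec]
      linear_combination h
    · rintro (h | h)
      · have := hdec x
        rw [h, zero_smul, zero_add] at this
        simp only [h, zero_smul, sub_zero]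
        conv_lhs => rw [this, hK, ← this]
        exact sub_self _
      · have := hdec x
        rw [h, zero_smul, add_zero] at this
        simp only [h, zero_smul, sub_zero]
        conv_lhs => rw [this, hfK, ← this]
        rw [← this]
        exact sub_self _
  let O : Finset L := univ.filter fun x => b.repr x 0 ≠ 0 ∧ b.repr x 1 ≠ 0
  have hOcard : O.card = (r + 1) ^ 2 := by
    have : O.card = (univ.erase (0 : K) ×ˢ univ.erase (0 : K)).card := by
      refine Finset.card_bij (fun x _ => (b.repr x 0, b.repr x 1)) ?_ ?_ ?_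
      · intro x hx
        simpa [O] using hx
      · intro x _ y _ h
        have h1 : b.repr x 0 = b.repr y 0 := (Prod.ext_iff.1 h).1
        have h2 : b.repr x 1 = b.repr y 1 := (Prod.ext_iff.1 h).2
        calc x = b.repr x 0 • 1 + b.repr x 1 • g := hdec x
          _ = b.repr y 0 • 1 + b.repr y 1 • g := by rw [h1, h2]
          _ = y := (hdec y).symm
      · rintro ⟨a, c⟩ h
        refine ⟨a • 1 + c • g, ?_, Prod.ext (hrepr a c).1 (hrepr a c).2⟩
        simp only [O, mem_filter, mem_univ, true_and, (hrepr a c).1, (hrepr a c).2]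
        simpa using h
    rw [this, card_product, card_erase_of_mem (mem_univ _), card_univ, hr, sq]
    rfl
  have hO : ∀ x ∈ O, ∀ c : K, c ≠ 0 → c • x ∈ O := by
    intro x hx c hc
    simp only [O, mem_filter, mem_univ, true_and, map_smul, Finsupp.smul_apply, smul_eq_mul] at hx ⊢
    exact ⟨mul_ne_zero hc hx.1, mul_ne_zero hc hx.2⟩
  have hlt : O.card < Fintype.card K * (Fintype.card K - 1) := by
    rw [hOcard, hr, show r + 2 - 1 = r + 1 by omega]
    nlinarith
  obtain ⟨t, ht⟩ := pigeon hK ((b.coord 0).comp ψ) ((b.coord 1).comp ψ) O hO hlt (by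
    intro x hx h1 h2
    have h3 : ψ (x, f x) = 0 := by
      rw [hdec (ψ (x, f x))]
      simp only [LinearMap.comp_apply, Module.Basis.coord_apply] at h1 h2
      rw [h1, h2]
      simp
    have := (hψ0 x).1 h3
    simp only [O, mem_filter, mem_univ, true_and] at hx
    tauto)
  let φ : L × L →ₗ[K] K := (b.coord 0).comp ψ + t • (b.coord 1).comp ψ
  have hφ : ∀ x, φ (x, f x) = 0 ↔ x ∉ O := by
    intro x
    constructor
    · intro h hx
      exact ht x hx h
    · intro hx
      have : ψ (x, f x) = 0 := (hψ0 x).2 (by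
        simp only [O, mem_filter, mem_univ, true_and] at hx
        tauto)
      simp [φ, this]
  have hφ0 : lev f φ 0 = 2 * r + 3 := by
    have : lev f φ 0 + O.card = Fintype.card L := by
      unfold lev
      rw [← Finset.card_univ, ← Finset.card_filter_add_card_filter_not (s := univ)
        (fun x => φ (x, f x) = 0)]
      congr 2
      ext x
      simp [hφ]
    rw [hOcard, hL, hr] at this
    nlinarith
  have hφ1 : lev f φ 1 = r + 1 := by
    have h4 := lev_sum hK φ
    rw [hL, hr, hφ0, show r + 2 - 1 = r + 1 by omega] at h4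
    apply Nat.eq_of_mul_eq_mul_left (show 0 < r + 1 by omega)
    nlinarith
  obtain ⟨t', ht'⟩ := pigeon hK (α - β) φ O hO hlt (fun x hx _ h2 => (hφ x).1 h2 hx)
  let φ' : L × L →ₗ[K] K := α - β + t' • φ
  have hφ'0 : lev f φ' 0 = 1 := by
    unfold lev
    rw [Finset.card_eq_one]
    refine ⟨0, ?_⟩
    ext x
    simp only [mem_filter, mem_univ, true_and, mem_singleton]
    constructor
    · intro h
      by_cases hx : x ∈ O
      · exact absurd h (ht' x hx)
      · have h1 := (hφ x).2 hx
        have h2 : b.repr x 0 = b.repr x 1 := by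
          have : (α - β) (x, f x) + t' * φ (x, f x) = 0 := h
          rw [h1, mul_zero, add_zero] at this
          exact sub_eq_zero.1 this
        simp only [O, mem_filter, mem_univ, true_and, h2, and_self, not_not] at hx
        rw [hdec x, h2, hx]
        simp
    · rintro rfl
      rw [map_zero]
      exact map_zero φ'
  have hφ'1 : lev f φ' 1 = r + 3 := by
    have h4 := lev_sum hK φ'
    rw [hL, hr, hφ'0, show r + 2 - 1 = r + 1 by omega] at h4
    apply Nat.eq_of_mul_eq_mul_left (show 0 < r + 1 by omega)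
    nlinarith
  refine ⟨?_, ?_, ?_⟩
  · have h1 := hplane φ
    have h2 := hplane φ'
    rw [hφ0, hφ1] at h1
    rw [hφ'0, hφ'1] at h2
    rw [hr, ← Int.natCast_dvd_natCast]
    have := dvd_add h1 h2
    push_cast at this ⊢
    rw [← dvd_neg]
    convert this using 1
    ring
  · have h1 := sum_rep_lev f φ 0
    rw [conv_zero hK, hφ0, hφ1, hr, show r + 2 - 1 = r + 1 by omega] at h1
    let ι : K × K → L × L := fun ac => (ac.1 • 1 + ac.2 • g, ac.1 • 1 + ac.2 • f g)
    have hι : Function.Injective ι := by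
      rintro ⟨a, c⟩ ⟨a', c'⟩ h
      have h2 := (Prod.ext_iff.1 h).1
      simp only [ι] at h2
      have h3 := hrepr a c
      rw [h2] at h3
      exact Prod.ext (h3.1.symm.trans (hrepr a' c').1) (h3.2.symm.trans (hrepr a' c').2)
    have h2 : ∑ ac : K × K, rep f (ι ac).1 (ι ac).2 ≤
        ∑ G ∈ univ.filter (fun G => φ G = 0), rep f G.1 G.2 := by
      rw [← Finset.sum_image (s := univ) (g := ι) (f := fun G => rep f G.1 G.2)
        (fun x _ y _ h => hι h)]
      refine Finset.sum_le_sum_of_subset ?_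
      intro G hG
      obtain ⟨⟨a, c⟩, -, rfl⟩ := mem_image.1 hG
      have : ψ (ι (a, c)) = 0 := by
        rw [hψ]
        simp only [ι, (hrepr a c).1, (hrepr a c).2]
        ring
      simp [φ, this]
    have hg0 : g ≠ 0 := b.ne_zero 1
    have h3 : ∑ ac : K × K, rep f (ι ac).1 (ι ac).2 =
        (r + 2) ^ 2 + (r + 1) * B + (r + 1) * (B + (r + 1) * A) := by
      rw [Fintype.sum_prod_type, ← Finset.add_sum_erase _ _ (mem_univ (0 : K)),
        ← Finset.add_sum_erase _ _ (mem_univ (0 : K))]
      congr 1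
      · congr 1
        · simp [ι, hrep0, hL, hr]
        · rw [Finset.sum_congr rfl (g := fun _ => B) (fun c hc => by
            simp only [ι, zero_smul, zero_add]
            rw [← hK]
            exact hrepD _ (smul_ne_zero (Finset.ne_of_mem_erase hc) hg0))]
          simp [hr]
      · rw [Finset.sum_congr rfl (g := fun _ => B + (r + 1) * A) (fun a ha => by
          rw [← Finset.add_sum_erase _ _ (mem_univ (0 : K))]
          congr 1
          · simp only [ι, zero_smul, add_zero]
            have := hrepD _ (smul_ne_zero (Finset.ne_of_mem_erase ha) (one_ne_zero (α := L)))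
            rwa [hfK] at this
          · rw [Finset.sum_congr rfl (g := fun _ => A) (fun c hc =>
              hsec a c (Finset.ne_of_mem_erase ha) (Finset.ne_of_mem_erase hc))]
            simp [hr])]
        simp [hr]
    rw [h3, h1] at h2
    rw [hr]
    by_contra hc
    have hc' : r + 3 ≤ A := by omega
    nlinarith [Nat.mul_le_mul_left ((r + 1) * (r + 1)) hc', Nat.mul_le_mul_left (r + 1) hBr]
  · have h1 := hsec 1 1 one_ne_zero one_ne_zero
    have h2 := claim 1 1 one_ne_zero one_ne_zero
    have hu : (1 : K) • (1 : L) + (1 : K) • g ≠ 0 := by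
      intro h0
      have := (hrepr 1 1).1
      rw [h0] at this
      simp at this
    have hfu : f ((1 : K) • (1 : L) + (1 : K) • g) ≠ 0 := fun h => hu (hf (by rw [h, map_zero]))
    rw [rep_scale f hf hu] at h1
    exact ⟨_, fun h => h2 ((div_eq_one_iff_eq hfu).1 h).symm, hApos, h1⟩

end Pool.Agent.MP_7adc1e_nt
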